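import Pool.Agent.Helper41.AB.NotProd
import Pool.Agent.Helper41.AB.Alg

/-!
# The abelianization of the group of area preserving diffeomorphisms of the plane is huge

Own statement beside the proof of the frozen statement S14156. The group of all area preserving
smooth diffeomorphisms of the plane has a surjective homomorphism onto the real vector space
`C^∞(ℝ) / {h : ∫₀ʳ h = O(r)}`, of dimension the continuum, which maps every radial twist (rotation
of `x` by the angle `h (|x|²/2)`) to the class of `h`.
-/

set_option autoImplicit false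

namespace Pool.Agent.Results.MP_e8131c_gt.HugeAbelianization

open Pool.Agent.Helper31.AP Pool.Agent.Helper41.AB

/-- smooth maps of the plane to itself -/
def IsSmooth (f : (Fin 2 → ℝ) → (Fin 2 → ℝ)) : Prop :=
  ContDiff ℝ ((⊤ : ℕ∞) : WithTop ℕ∞) f

/-- the Jacobian determinant of `f` at the point `x` -/
noncomputable def jacobian (f : (Fin 2 → ℝ) → (Fin 2 → ℝ)) (x : Fin 2 → ℝ) : ℝ :=
  (fderiv ℝ f x).det

/-- The group (under composition) of all smooth diffeomorphisms of the plane whose Jacobian
determinant is identically 1; no condition on the supports. -/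
def AreaDiff : Subgroup (Equiv.Perm (Fin 2 → ℝ)) where
  carrier := {f | IsSmooth (⇑f) ∧ IsSmooth (⇑(Equiv.symm f)) ∧ ∀ x, jacobian (⇑f) x = 1}
  mul_mem' := by
    intro a b ha hb
    have h : IsAP (a * b) := IsAP.mul (show IsAP a from ha) (show IsAP b from hb)
    exact ⟨h.1, h.2.1, h.2.2⟩
  one_mem' := by
    have h : IsAP 1 := IsAP.one
    exact ⟨h.1, h.2.1, h.2.2⟩
  inv_mem' := by
    intro a ha
    have h : IsAP a⁻¹ := IsAP.symm (show IsAP a from ha)
    exact ⟨h.1, h.2.1, h.2.2⟩

/-- The radial twist with angle function `h`: the point `x` is rotated about the origin by the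
angle `h (|x|²/2)`, where `|x|² = x₀² + x₁²`. -/
noncomputable def twist (h : ℝ → ℝ) (x : Fin 2 → ℝ) : Fin 2 → ℝ :=
  ![x 0 * Real.cos (h ((x 0 ^ 2 + x 1 ^ 2) / 2)) - x 1 * Real.sin (h ((x 0 ^ 2 + x 1 ^ 2) / 2)),
    x 0 * Real.sin (h ((x 0 ^ 2 + x 1 ^ 2) / 2)) + x 1 * Real.cos (h ((x 0 ^ 2 + x 1 ^ 2) / 2))]

/-- The real vector space of all smooth functions `ℝ → ℝ`. -/
def SmoothFun : Submodule ℝ (ℝ → ℝ) where
  carrier := {h | ContDiff ℝ ((⊤ : ℕ∞) : WithTop ℕ∞) h}
  add_mem' := by
    intro a b ha hb
    exact ContDiff.add (show ContDiff ℝ ((⊤ : ℕ∞) : WithTop ℕ∞) a from ha) hb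
  zero_mem' := by
    exact (contDiff_const : ContDiff ℝ ((⊤ : ℕ∞) : WithTop ℕ∞) fun _ : ℝ => (0 : ℝ))
  smul_mem' := by
    intro c h hh
    exact ContDiff.const_smul c (show ContDiff ℝ ((⊤ : ℕ∞) : WithTop ℕ∞) h from hh)

/-- The real vector space of all smooth functions `h : ℝ → ℝ` with bounded mean: there is `C` with
`|∫₀ʳ h| ≤ C r` for all `r ≥ 1`. -/
noncomputable def BoundedMean : Submodule ℝ (ℝ → ℝ) where
  carrier := {h | ContDiff ℝ ((⊤ : ℕ∞) : WithTop ℕ∞) h ∧
    ∃ C : ℝ, ∀ r : ℝ, 1 ≤ r → |∫ t in (0 : ℝ)..r, h t| ≤ C * r}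
  add_mem' := by
    rintro h k ⟨h1, C, hC⟩ ⟨h2, D, hD⟩
    refine ⟨h1.add h2, C + D, fun r hr => ?_⟩
    have e : ∫ t in (0 : ℝ)..r, (h + k) t = (∫ t in (0 : ℝ)..r, h t) + ∫ t in (0 : ℝ)..r, k t :=
      intervalIntegral.integral_add (h1.continuous.intervalIntegrable _ _)
        (h2.continuous.intervalIntegrable _ _)
    rw [e, add_mul]
    exact (abs_add_le _ _).trans (add_le_add (hC r hr) (hD r hr))
  zero_mem' := by
    exact ⟨(contDiff_const : ContDiff ℝ ((⊤ : ℕ∞) : WithTop ℕ∞) fun _ : ℝ => (0 : ℝ)), 0,
      fun r _ => by simp⟩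
  smul_mem' := by
    rintro c h ⟨h1, C, hC⟩
    refine ⟨h1.const_smul c, |c| * C, fun r hr => ?_⟩
    have e : ∫ t in (0 : ℝ)..r, (c • h) t = c * ∫ t in (0 : ℝ)..r, h t :=
      intervalIntegral.integral_const_mul _ _
    rw [e, abs_mul, mul_assoc]
    exact mul_le_mul_of_nonneg_left (hC r hr) (abs_nonneg c)

/-- The real vector space of all smooth functions modulo those with bounded mean. -/
def ModBounded : Type := SmoothFun ⧸ BoundedMean.submoduleOf SmoothFun

/-- the group structure of the quotient -/
noncomputable instance : AddCommGroup ModBounded :=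
  Submodule.Quotient.addCommGroup (BoundedMean.submoduleOf SmoothFun)

/-- the vector space structure of the quotient -/
noncomputable instance : Module ℝ ModBounded :=
  Submodule.Quotient.module (BoundedMean.submoduleOf SmoothFun)

/-- the class of a smooth function modulo the functions with bounded mean -/
noncomputable def cls (h : SmoothFun) : ModBounded :=
  (Submodule.Quotient.mk h : SmoothFun ⧸ BoundedMean.submoduleOf SmoothFun)

theorem contDiff_of (h : SmoothFun) : ContDiff ℝ ((⊤ : ℕ∞) : WithTop ℕ∞) (h : ℝ → ℝ) := h.2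

/-- the twist as an element of the group -/
noncomputable def twistG (h : SmoothFun) : AreaDiff :=
  ⟨⟨fh h, fh (fun t => -(h : ℝ → ℝ) t), fun x => by
      rw [fh_fh]
      simp only [neg_add_cancel]
      exact fh_zero x, fun x => by
      rw [fh_fh]
      simp only [add_neg_cancel]
      exact fh_zero x⟩,
    isAP_of_fh h h.2 _ (fun _ => rfl) (fun _ => rfl)⟩

theorem twistG_apply (h : SmoothFun) (x : Fin 2 → ℝ) :
    (twistG h : Equiv.Perm (Fin 2 → ℝ)) x = fh h x := rfl

theorem twistG_add (h k : SmoothFun) : twistG (h + k) = twistG h * twistG k := by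
  apply Subtype.ext
  ext1 x
  rw [twistG_apply]
  change fh ((h + k : SmoothFun) : ℝ → ℝ) x = fh h (fh k x)
  rw [fh_fh]
  rfl

theorem twistG_zero : twistG 0 = 1 := by
  apply Subtype.ext
  ext1 x
  exact fh_zero x

/-- the class of the twist in the abelianization, as an additive map -/
noncomputable def T : SmoothFun →+ Additive (Abelianization AreaDiff) where
  toFun h := Additive.ofMul (Abelianization.of (twistG h))
  map_zero' := by rw [twistG_zero, map_one]; rfl
  map_add' h k := by rw [twistG_add, map_mul]; rfl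

theorem mem_closure_of_mem_commutator (f : AreaDiff) (hf : f ∈ commutator AreaDiff) :
    (f : Equiv.Perm (Fin 2 → ℝ)) ∈ Subgroup.closure {c : Equiv.Perm (Fin 2 → ℝ) |
      ∃ a b : Equiv.Perm (Fin 2 → ℝ), IsAP a ∧ IsAP b ∧ c = a * b * a⁻¹ * b⁻¹} := by
  rw [commutator_eq_closure] at hf
  have h1 : (f : Equiv.Perm (Fin 2 → ℝ)) ∈
      (Subgroup.closure (commutatorSet AreaDiff)).map AreaDiff.subtype :=
    Subgroup.mem_map_of_mem AreaDiff.subtype hf
  rw [MonoidHom.map_closure] at h1
  refine Subgroup.closure_mono ?_ h1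
  rintro _ ⟨g, ⟨a, b, rfl⟩, rfl⟩
  exact ⟨a, b, a.2, b.2, by simp [commutatorElement_def]⟩

/-- if the class of the twist is trivial then `h` has bounded mean -/
theorem mem_boundedMean_of_T (h : SmoothFun) (hT : T h = 0) : (h : ℝ → ℝ) ∈ BoundedMean := by
  have h1 : twistG h ∈ commutator AreaDiff := by
    rw [← Abelianization.ker_of, MonoidHom.mem_ker]
    exact hT
  exact ⟨h.2, bounded_mean_of_prod h h.2 (twistG h : Equiv.Perm (Fin 2 → ℝ)) (twistG_apply h)
    (mem_closure_of_mem_commutator _ h1)⟩

/-- the exponential `t ↦ e^{at}` -/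
noncomputable def expFun (a : ℝ) : SmoothFun :=
  ⟨fun t => Real.exp (a * t), (Real.contDiff_exp.comp (contDiff_const.mul contDiff_id) :
    ContDiff ℝ ((⊤ : ℕ∞) : WithTop ℕ∞) (Real.exp ∘ fun t : ℝ => a * t))⟩

theorem rank_eq : Module.rank ℝ ModBounded = Cardinal.continuum := by
  change Module.rank ℝ (SmoothFun ⧸ BoundedMean.submoduleOf SmoothFun) = Cardinal.continuum
  apply le_antisymm
  · refine (rank_le_card ℝ _).trans ?_
    refine (Cardinal.mk_le_of_surjective (Submodule.mkQ_surjective (BoundedMean.submoduleOf SmoothFun))).trans ?_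
    exact card_le_of_continuous (SmoothFun : Set (ℝ → ℝ)) fun h hh => (contDiff_of ⟨h, hh⟩).continuous
  · have hli : LinearIndependent ℝ (fun a : Set.Ioi (0 : ℝ) =>
        (BoundedMean.submoduleOf SmoothFun).mkQ (expFun (a : ℝ))) := by
      rw [linearIndependent_iff']
      intro s g hg
      have h1 : (∑ a ∈ s, g a • expFun (a : ℝ)) ∈ BoundedMean.submoduleOf SmoothFun := by
        rw [← Submodule.ker_mkQ (BoundedMean.submoduleOf SmoothFun), LinearMap.mem_ker, map_sum,
          ← hg]
        exact Finset.sum_congr rfl fun a _ => by rw [map_smul]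
      obtain ⟨-, C, hC⟩ := h1
      classical
      let c : ℝ → ℝ := fun a => if ha : 0 < a then g ⟨a, ha⟩ else 0
      have hc : ∀ a : Set.Ioi (0 : ℝ), c a = g a := fun a => dif_pos a.2
      have h2 := exp_independent (s.map (Function.Embedding.subtype _)) (by
        intro a ha
        rw [Finset.mem_map] at ha
        obtain ⟨b, -, rfl⟩ := ha
        exact b.2) c C (by
        intro r hr
        have e : ∑ a ∈ s.map (Function.Embedding.subtype _),
            c a * ((Real.exp (a * r) - 1) / a) =
            ∫ t in (0 : ℝ)..r, ((∑ a ∈ s, g a • expFun (a : ℝ) : SmoothFun) : ℝ → ℝ) t := by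
          rw [Finset.sum_map]
          have e1 : ((∑ a ∈ s, g a • expFun (a : ℝ) : SmoothFun) : ℝ → ℝ) =
              fun t => ∑ a ∈ s, g a * Real.exp ((a : ℝ) * t) := by
            funext t
            rw [Submodule.coe_sum, Finset.sum_apply]
            rfl
          rw [e1, intervalIntegral.integral_finsetSum]
          · refine Finset.sum_congr rfl fun a _ => ?_
            rw [intervalIntegral.integral_const_mul, integral_exp_mul_real a a.2 r]
            rw [Function.Embedding.subtype_apply, hc]
          · intro a _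
            exact Continuous.intervalIntegrable (by fun_prop) _ _
        rw [e]
        exact hC r hr)
      intro a ha
      rw [← hc a]
      exact h2 a (Finset.mem_map.2 ⟨a, ha, rfl⟩)
    have h3 := hli.cardinal_le_rank
    rwa [Cardinal.mk_Ioi_real] at h3

/-- The group of all area preserving smooth diffeomorphisms of the plane has a surjective
homomorphism `Φ` onto the additive group of the real vector space of smooth functions modulo those
with bounded mean, which maps every radial twist to the class of its angle function; and this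
vector space has dimension the continuum. -/
theorem result :
    (∃ Φ : AreaDiff → ModBounded, (∀ f g, Φ (f * g) = Φ f + Φ g) ∧ Function.Surjective Φ ∧
      ∀ h : SmoothFun, ∃ f : AreaDiff,
        (∀ x, (f : Equiv.Perm (Fin 2 → ℝ)) x = twist h x) ∧ Φ f = cls h) ∧
    Module.rank ℝ ModBounded = Cardinal.continuum := by
  refine ⟨?_, rank_eq⟩
  let _ : DivisibleBy ModBounded ℤ := divisibleReal ModBounded
  let π : SmoothFun →+ ModBounded :=
    { toFun := cls
      map_zero' := rfl
      map_add' := fun _ _ => rfl }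
  obtain ⟨Ψ, hΨ⟩ := exists_factor (W := ModBounded) T π (by
    intro h hT
    have h1 := mem_boundedMean_of_T h hT
    exact (Submodule.Quotient.mk_eq_zero (BoundedMean.submoduleOf SmoothFun)).2 h1)
  have hΦ : ∀ h : SmoothFun, Ψ (Additive.ofMul (Abelianization.of (twistG h))) = cls h :=
    fun h => hΨ h
  refine ⟨fun g => Ψ (Additive.ofMul (Abelianization.of g)), fun f g => ?_, ?_,
    fun h => ⟨twistG h, fun x => rfl, hΦ h⟩⟩
  · beta_reduce
    rw [map_mul, ofMul_mul, map_add]
  · intro v
    obtain ⟨h, hh⟩ := Submodule.Quotient.mk_surjective (BoundedMean.submoduleOf SmoothFun) v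
    exact ⟨twistG h, (hΦ h).trans hh⟩

end Pool.Agent.Results.MP_e8131c_gt.HugeAbelianization
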